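import Mathlib

/-!
# Representable implication semigroups do not form a variety

An implication semigroup here is a set with two binary operations `imp` and `comp`.  It is
representable if it embeds into the algebra of all subrelations of a transitive relation `T`, with
relative implication `(T \ a) ∪ b` and relational composition.

We show that the class of representable algebras is not closed under homomorphic images, so that it
is not the class of models of any set of equations.  The example is finite: an algebra of relations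
on seven points, and its quotient by the congruence of equality outside one pair.
-/

set_option autoImplicit false

namespace Pool.Agent.Results.MP_390e14_lc.NotVariety

/-- An algebra with two binary operations `→` and `;`. -/
class Alg (A : Type) where
  /-- the operation `→` -/
  imp : A → A → A
  /-- the operation `;` -/
  comp : A → A → A

/-- `h` is a representation of the algebra `A` over the transitive relation `T` on `X`: an injective
map into the subrelations of `T`, where `→` becomes the relative implication `(T \ a) ∪ b` and `;`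
becomes relational composition. -/
structure IsRepr (A : Type) [Alg A] {X : Type*} (T : X → X → Prop) (h : A → X → X → Prop) :
    Prop where
  trans : ∀ x y z, T x y → T y z → T x z
  inj : Function.Injective h
  sub : ∀ a x y, h a x y → T x y
  imp : ∀ a b x y, h (Alg.imp a b) x y ↔ T x y ∧ (h a x y → h b x y)
  comp : ∀ a b x y, h (Alg.comp a b) x y ↔ ∃ u, h a x u ∧ h b u y

/-- The algebra is representable over a set `X` of the universe `v`. -/
def Representable.{v} (A : Type) [Alg A] : Prop :=
  ∃ (X : Type v) (T : X → X → Prop) (h : A → X → X → Prop), IsRepr A T h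

/-- The algebra is representable over a finite set. -/
def FinitelyRepresentable (A : Type) [Alg A] : Prop :=
  ∃ (X : Type) (_ : Finite X) (T : X → X → Prop) (h : A → X → X → Prop), IsRepr A T h

/-- Homomorphisms of the signature `(→, ;)`. -/
def IsHom {A B : Type} [Alg A] [Alg B] (f : A → B) : Prop :=
  (∀ a b, f (Alg.imp a b) = Alg.imp (f a) (f b)) ∧ ∀ a b, f (Alg.comp a b) = Alg.comp (f a) (f b)

/-- Terms of the signature `(→, ;)` in the variables `0, 1, 2, …`. -/
inductive Term : Type
  | var (n : ℕ) : Term
  | imp (s t : Term) : Term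
  | comp (s t : Term) : Term

/-- The value of a term. -/
def Term.eval {A : Type} [Alg A] (v : ℕ → A) : Term → A
  | .var n => v n
  | .imp s t => Alg.imp (s.eval v) (t.eval v)
  | .comp s t => Alg.comp (s.eval v) (t.eval v)

/-- The algebra satisfies all equations of the set `E`. -/
def Satisfies (A : Type) [Alg A] (E : Set (Term × Term)) : Prop :=
  ∀ e ∈ E, ∀ v : ℕ → A, e.1.eval v = e.2.eval v

theorem eval_hom {A B : Type} [Alg A] [Alg B] {f : A → B} (hf : IsHom f) (v : ℕ → A) (t : Term) :
    t.eval (fun n => f (v n)) = f (t.eval v) := by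
  induction t with
  | var n => rfl
  | imp s t hs ht => simp only [Term.eval, hs, ht, hf.1]
  | comp s t hs ht => simp only [Term.eval, hs, ht, hf.2]

theorem satisfies_image {A B : Type} [Alg A] [Alg B] {f : A → B} (hf : IsHom f)
    (hs : Function.Surjective f) {E : Set (Term × Term)} (h : Satisfies A E) : Satisfies B E := by
  intro e he v
  choose g hg using hs
  have h1 : v = fun n => f (g (v n)) := by funext n; rw [hg]
  rw [h1, eval_hom hf, eval_hom hf, h e he]

/-! ### A quasi-identity of representable algebras -/

/-- The join `(a → b) → b`. -/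
def join {A : Type} [Alg A] (a b : A) : A := Alg.imp (Alg.imp a b) b

/-- `a ≤ b`, that is `a → b = a → a`. -/
def le {A : Type} [Alg A] (a b : A) : Prop := Alg.imp a b = Alg.imp a a

theorem le_iff {A : Type} [Alg A] {X : Type*} {T : X → X → Prop} {h : A → X → X → Prop}
    (H : IsRepr A T h) (a b : A) : le a b ↔ ∀ x y, h a x y → h b x y := by
  constructor
  · intro h1 x y hx
    have h2 : h (Alg.imp a a) x y := (H.imp a a x y).2 ⟨H.sub a x y hx, id⟩
    rw [← h1, H.imp] at h2
    exact h2.2 hx
  · intro h1
    apply H.inj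
    funext x y
    apply propext
    rw [H.imp, H.imp]
    exact ⟨fun h2 => ⟨h2.1, id⟩, fun h2 => ⟨h2.1, h1 x y⟩⟩

theorem join_iff {A : Type} [Alg A] {X : Type*} {T : X → X → Prop} {h : A → X → X → Prop}
    (H : IsRepr A T h) (a b : A) (x y : X) : h (join a b) x y ↔ h a x y ∨ h b x y := by
  have h0 := H.sub a x y
  have h00 := H.sub b x y
  rw [join, H.imp, H.imp]
  tauto

/-- In every representable algebra: if `k ≤ m ∨ n`, `k ≤ m' ∨ n`, `n;e ≤ q`, `e ≤ e;e`, the
intersection of `m;e` and `m';e` lies in `c`, and `c;e ≤ q`, then `k;e ≤ q`. -/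
theorem quasi {A : Type} [Alg A] {X : Type*} {T : X → X → Prop} {h : A → X → X → Prop}
    (H : IsRepr A T h) (k m m' n e c q : A)
    (h1 : le k (join m n)) (h2 : le k (join m' n)) (h3 : le (Alg.comp n e) q)
    (h4 : le e (Alg.comp e e)) (h5 : le (Alg.comp m e) (Alg.imp (Alg.comp m' e) c))
    (h6 : le (Alg.comp c e) q) : le (Alg.comp k e) q := by
  rw [le_iff H] at *
  intro w z hwz
  by_contra hq
  rw [H.comp] at hwz
  obtain ⟨x, hk, he⟩ := hwz
  have hn : ¬ h n w x := fun hn => hq (h3 w z ((H.comp _ _ _ _).2 ⟨x, hn, he⟩))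
  have hm : h m w x := ((join_iff H m n w x).1 (h1 w x hk)).resolve_right hn
  have hm' : h m' w x := ((join_iff H m' n w x).1 (h2 w x hk)).resolve_right hn
  obtain ⟨y, hxy, hyz⟩ := (H.comp _ _ _ _).1 (h4 x z he)
  have h7 := h5 w y ((H.comp _ _ _ _).2 ⟨x, hm, hxy⟩)
  rw [H.imp] at h7
  have h8 := h7.2 ((H.comp _ _ _ _).2 ⟨x, hm', hxy⟩)
  exact hq (h6 w z ((H.comp _ _ _ _).2 ⟨y, h8, hyz⟩))

/-! ### The example

The points are `0, …, 6`; the pair `(1, 2)` is the exceptional one. -/

/-- Relations on seven points. -/
abbrev Rel : Type := Fin 7 → Fin 7 → Bool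

/-- The relation given by a list of pairs. -/
def ofList (l : List (Fin 7 × Fin 7)) : Rel := fun p q => l.contains (p, q)

/-- Pairs which belong to all relations of the example. -/
def common : List (Fin 7 × Fin 7) :=
  [(3, 3), (3, 2), (4, 4), (4, 2), (5, 5), (5, 6), (6, 6), (6, 2)]

/-- The transitive relation. -/
def T : Rel := ofList (common ++ [(0, 1), (0, 2), (0, 3), (0, 4), (0, 5), (0, 6), (1, 2), (5, 2)])

def K : Rel := ofList (common ++ [(1, 2), (0, 1), (0, 5)])
def M : Rel := ofList (common ++ [(1, 2), (0, 1), (0, 3)])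
def M' : Rel := ofList (common ++ [(1, 2), (0, 1), (0, 4)])
def N : Rel := ofList (common ++ [(1, 2), (0, 5)])
def E : Rel := ofList (common ++ [(1, 2), (0, 3), (0, 4)])
def C : Rel := ofList (common ++ [(1, 2), (0, 5), (0, 2), (5, 2)])
def Q : Rel := ofList (common ++ [(1, 2), (0, 3), (0, 4), (0, 5), (0, 6), (5, 2)])

/-- Relative implication. -/
def rimp (a b : Rel) : Rel := fun p q => T p q && (!a p q || b p q)

/-- Composition. -/
def rcomp (a b : Rel) : Rel := fun p q => decide (∃ u, a p u = true ∧ b u q = true)

/-- The relations generated by the seven relations above. -/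
inductive Gen : Rel → Prop
  | k : Gen K
  | m : Gen M
  | m' : Gen M'
  | n : Gen N
  | e : Gen E
  | c : Gen C
  | q : Gen Q
  | imp {a b : Rel} : Gen a → Gen b → Gen (rimp a b)
  | comp {a b : Rel} : Gen a → Gen b → Gen (rcomp a b)

/-- All members of the algebra contain the pairs of `common`. -/
theorem gen_common {a : Rel} (h : Gen a) : ∀ p q, common.contains (p, q) = true → a p q = true := by
  induction h with
  | k => decide
  | m => decide
  | m' => decide
  | n => decide
  | e => decide
  | c => decide
  | q => decide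
  | imp ha hb iha ihb =>
    intro p q hpq
    have h1 := ihb p q hpq
    have h2 : ∀ p q, common.contains (p, q) = true → T p q = true := by decide
    simp [rimp, h1, h2 p q hpq]
  | @comp a b ha hb iha ihb =>
    intro p q hpq
    have h2 : ∀ p q, common.contains (p, q) = true →
      ∃ u, common.contains (p, u) = true ∧ common.contains (u, q) = true := by decide
    obtain ⟨u, h3, h4⟩ := h2 p q hpq
    simp only [rcomp, decide_eq_true_eq]
    exact ⟨u, iha _ _ h3, ihb _ _ h4⟩

theorem gen_sub {a : Rel} (h : Gen a) : ∀ p q, a p q = true → T p q = true := by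
  induction h with
  | k => decide
  | m => decide
  | m' => decide
  | n => decide
  | e => decide
  | c => decide
  | q => decide
  | imp ha hb iha ihb =>
    intro p q hpq
    simp only [rimp, Bool.and_eq_true] at hpq
    exact hpq.1
  | @comp a b ha hb iha ihb =>
    intro p q hpq
    simp only [rcomp, decide_eq_true_eq] at hpq
    obtain ⟨u, h1, h2⟩ := hpq
    have h3 : ∀ p u q, T p u = true → T u q = true → T p q = true := by decide
    exact h3 p u q (iha _ _ h1) (ihb _ _ h2)

/-- Every member of the algebra contains one of the pairs `(0, 3), (0, 4), (0, 5)`. -/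
theorem gen_zero {a : Rel} (h : Gen a) : a 0 3 = true ∨ a 0 4 = true ∨ a 0 5 = true := by
  induction h with
  | k => decide
  | m => decide
  | m' => decide
  | n => decide
  | e => decide
  | c => decide
  | q => decide
  | imp ha hb iha ihb =>
    have h3 : T 0 3 = true := by decide
    have h4 : T 0 4 = true := by decide
    have h5 : T 0 5 = true := by decide
    simp only [rimp, h3, h4, h5, Bool.true_and, Bool.or_eq_true]
    rcases ihb with h | h | h
    · exact Or.inl (Or.inr h)
    · exact Or.inr (Or.inl (Or.inr h))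
    · exact Or.inr (Or.inr (Or.inr h))
  | @comp a b ha hb iha ihb =>
    simp only [rcomp, decide_eq_true_eq]
    have h3 := gen_common hb 3 3 (by decide)
    have h4 := gen_common hb 4 4 (by decide)
    have h5 := gen_common hb 5 5 (by decide)
    rcases iha with h | h | h
    · exact Or.inl ⟨3, h, h3⟩
    · exact Or.inr (Or.inl ⟨4, h, h4⟩)
    · exact Or.inr (Or.inr ⟨5, h, h5⟩)

/-- A member of the algebra which does not contain the exceptional pair contains `(3, 2)`, `(4, 2)`
and `(5, 2)`. -/
theorem gen_two {a : Rel} (h : Gen a) (h12 : a 1 2 = false) :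
    a 3 2 = true ∧ a 4 2 = true ∧ a 5 2 = true := by
  refine ⟨gen_common h 3 2 (by decide), gen_common h 4 2 (by decide), ?_⟩
  induction h with
  | k => exact absurd h12 (by decide)
  | m => exact absurd h12 (by decide)
  | m' => exact absurd h12 (by decide)
  | n => exact absurd h12 (by decide)
  | e => exact absurd h12 (by decide)
  | c => exact absurd h12 (by decide)
  | q => exact absurd h12 (by decide)
  | @imp a b ha hb iha ihb =>
    have h1 : T 1 2 = true := by decide
    have h5 : T 5 2 = true := by decide
    simp only [rimp, h1, h5, Bool.true_and, Bool.or_eq_false_iff, Bool.or_eq_true] at h12 ⊢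
    exact Or.inr (ihb h12.2)
  | @comp a b ha hb iha ihb =>
    simp only [rcomp, decide_eq_true_eq]
    exact ⟨6, gen_common ha 5 6 (by decide), gen_common hb 6 2 (by decide)⟩

/-- The algebra of the example. -/
abbrev A₀ : Type := {a : Rel // Gen a}

instance : Alg A₀ where
  imp a b := ⟨rimp a.1 b.1, Gen.imp a.2 b.2⟩
  comp a b := ⟨rcomp a.1 b.1, Gen.comp a.2 b.2⟩

theorem isRepr_A₀ : IsRepr A₀ (fun p q : Fin 7 => T p q = true) (fun a p q => a.1 p q = true) where
  trans := by decide
  inj := by
    intro a b hab
    apply Subtype.ext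
    funext p q
    have h1 := congrFun (congrFun hab p) q
    simp only [eq_iff_iff] at h1
    exact Bool.eq_iff_iff.2 h1
  sub a p q h := gen_sub a.2 p q h
  imp a b p q := by
    change (T p q && (!a.1 p q || b.1 p q)) = true ↔ _
    cases T p q <;> cases a.1 p q <;> cases b.1 p q <;> simp
  comp a b p q := by
    change decide _ = true ↔ _
    rw [decide_eq_true_eq]

/-- Equality outside the exceptional pair. -/
def Eqv (a b : A₀) : Prop := ∀ p q, (p, q) ≠ ((1, 2) : Fin 7 × Fin 7) → a.1 p q = b.1 p q

instance stp : Setoid A₀ where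
  r := Eqv
  iseqv := ⟨fun _ _ _ _ => rfl, fun h p q hpq => (h p q hpq).symm,
    fun h h' p q hpq => (h p q hpq).trans (h' p q hpq)⟩

theorem eqv_imp {a a' b b' : A₀} (ha : Eqv a a') (hb : Eqv b b') :
    Eqv (Alg.imp a b) (Alg.imp a' b') := by
  intro p q hpq
  change (T p q && (!a.1 p q || b.1 p q)) = (T p q && (!a'.1 p q || b'.1 p q))
  rw [ha p q hpq, hb p q hpq]

theorem T_two : ∀ q, ¬ T 2 q = true := by decide

theorem T_one : ∀ p, T p 1 = true → p = 0 := by decide

theorem eqv_comp_aux {a a' b b' : A₀} (ha : Eqv a a') (hb : Eqv b b') (p q : Fin 7)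
    (h : (Alg.comp a b).1 p q = true) : (Alg.comp a' b').1 p q = true := by
  change decide _ = true at h
  change decide _ = true
  rw [decide_eq_true_eq] at h ⊢
  obtain ⟨u, h1, h2⟩ := h
  by_cases hpu : (p, u) = ((1, 2) : Fin 7 × Fin 7)
  · -- the point `2` has no successor
    have hu : u = 2 := (Prod.mk.inj hpu).2
    have h3 := gen_sub b.2 u q h2
    rw [hu] at h3
    exact absurd h3 (T_two q)
  · by_cases huq : (u, q) = ((1, 2) : Fin 7 × Fin 7)
    · obtain ⟨hu, hq⟩ := Prod.mk.inj huq
      subst hu
      subst hq
      -- the only predecessor of `1` is `0`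
      have h3 := gen_sub a.2 p 1 h1
      have hp : p = 0 := T_one p h3
      subst hp
      cases h4 : b'.1 1 2
      · obtain ⟨h5, h6, h7⟩ := gen_two b'.2 h4
        rcases gen_zero a'.2 with h8 | h8 | h8
        · exact ⟨3, h8, h5⟩
        · exact ⟨4, h8, h6⟩
        · exact ⟨5, h8, h7⟩
      · exact ⟨1, by rw [← ha 0 1 (by decide)]; exact h1, h4⟩
    · exact ⟨u, by rw [← ha p u hpu]; exact h1, by rw [← hb u q huq]; exact h2⟩

theorem eqv_comp {a a' b b' : A₀} (ha : Eqv a a') (hb : Eqv b b') :
    Eqv (Alg.comp a b) (Alg.comp a' b') := by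
  intro p q _
  apply Bool.eq_iff_iff.2
  exact ⟨eqv_comp_aux ha hb p q,
    eqv_comp_aux (fun p q h => (ha p q h).symm) (fun p q h => (hb p q h).symm) p q⟩

/-- The quotient of the example. -/
abbrev B₀ : Type := Quotient stp

instance : Alg B₀ where
  imp := Quotient.map₂ Alg.imp (fun _ _ ha _ _ hb => eqv_imp ha hb)
  comp := Quotient.map₂ Alg.comp (fun _ _ ha _ _ hb => eqv_comp ha hb)

/-- The projection. -/
def proj (a : A₀) : B₀ := Quotient.mk stp a

theorem proj_hom : IsHom proj := ⟨fun _ _ => rfl, fun _ _ => rfl⟩

theorem proj_surjective : Function.Surjective proj := fun b => Quotient.exists_rep b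

instance : Finite A₀ := inferInstance

theorem le_proj {a b : A₀} (h : ∀ p q, (p, q) ≠ ((1, 2) : Fin 7 × Fin 7) →
    a.1 p q = true → b.1 p q = true) : le (proj a) (proj b) := by
  refine Quotient.sound (s := stp) ?_
  intro p q hpq
  change (T p q && (!a.1 p q || b.1 p q)) = (T p q && (!a.1 p q || a.1 p q))
  have h1 := h p q hpq
  cases h2 : a.1 p q
  · simp
  · rw [h1 h2]

theorem not_le_proj {a b : A₀} (p q : Fin 7) (hpq : (p, q) ≠ ((1, 2) : Fin 7 × Fin 7))
    (h1 : a.1 p q = true) (h2 : b.1 p q = false) : ¬ le (proj a) (proj b) := by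
  intro h
  have h3 : Eqv (Alg.imp a b) (Alg.imp a a) := Quotient.exact (s := stp) h
  have h4 := h3 p q hpq
  change (T p q && (!a.1 p q || b.1 p q)) = (T p q && (!a.1 p q || a.1 p q)) at h4
  rw [gen_sub a.2 p q h1, h1, h2] at h4
  exact absurd h4 (by decide)

theorem not_representable_B₀ {X : Type*} (T' : X → X → Prop) (h : B₀ → X → X → Prop) :
    ¬ IsRepr B₀ T' h := by
  intro H
  let k : A₀ := ⟨K, Gen.k⟩
  let m : A₀ := ⟨M, Gen.m⟩
  let m' : A₀ := ⟨M', Gen.m'⟩
  let n : A₀ := ⟨N, Gen.n⟩
  let e : A₀ := ⟨E, Gen.e⟩
  let c : A₀ := ⟨C, Gen.c⟩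
  let q : A₀ := ⟨Q, Gen.q⟩
  have h1 : le (proj k) (join (proj m) (proj n)) :=
    le_proj (a := k) (b := join m n) (by
      change ∀ p q, (p, q) ≠ ((1, 2) : Fin 7 × Fin 7) → K p q = true → (rimp (rimp M N) N) p q = true
      decide)
  have h2 : le (proj k) (join (proj m') (proj n)) :=
    le_proj (a := k) (b := join m' n) (by
      change ∀ p q, (p, q) ≠ ((1, 2) : Fin 7 × Fin 7) → K p q = true →
        (rimp (rimp M' N) N) p q = true
      decide)
  have h3 : le (Alg.comp (proj n) (proj e)) (proj q) :=
    le_proj (a := Alg.comp n e) (b := q) (by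
      change ∀ p q, (p, q) ≠ ((1, 2) : Fin 7 × Fin 7) → rcomp N E p q = true → Q p q = true
      decide)
  have h4 : le (proj e) (Alg.comp (proj e) (proj e)) :=
    le_proj (a := e) (b := Alg.comp e e) (by
      change ∀ p q, (p, q) ≠ ((1, 2) : Fin 7 × Fin 7) → E p q = true → rcomp E E p q = true
      decide)
  have h5 : le (Alg.comp (proj m) (proj e)) (Alg.imp (Alg.comp (proj m') (proj e)) (proj c)) :=
    le_proj (a := Alg.comp m e) (b := Alg.imp (Alg.comp m' e) c) (by
      change ∀ p q, (p, q) ≠ ((1, 2) : Fin 7 × Fin 7) → rcomp M E p q = true →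
        rimp (rcomp M' E) C p q = true
      decide)
  have h6 : le (Alg.comp (proj c) (proj e)) (proj q) :=
    le_proj (a := Alg.comp c e) (b := q) (by
      change ∀ p q, (p, q) ≠ ((1, 2) : Fin 7 × Fin 7) → rcomp C E p q = true → Q p q = true
      decide)
  have h7 := quasi H _ _ _ _ _ _ _ h1 h2 h3 h4 h5 h6
  exact not_le_proj (a := Alg.comp k e) (b := q) 0 2 (by decide)
    (by change rcomp K E 0 2 = true; decide) (by change Q 0 2 = false; decide) h7

theorem representable_A₀.{v} : Representable.{v} A₀ := by
  have H := isRepr_A₀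
  refine ⟨ULift.{v} (Fin 7), fun p q => T p.down q.down = true,
    fun a p q => a.1 p.down q.down = true, ?_, ?_, ?_, ?_, ?_⟩
  · intro x y z
    exact H.trans x.down y.down z.down
  · intro a b hab
    apply H.inj
    funext p q
    exact congrFun (congrFun hab ⟨p⟩) ⟨q⟩
  · intro a x y
    exact H.sub a x.down y.down
  · intro a b x y
    exact H.imp a b x.down y.down
  · intro a b x y
    rw [H.comp a b x.down y.down]
    exact ⟨fun ⟨u, h⟩ => ⟨⟨u⟩, h⟩, fun ⟨u, h⟩ => ⟨u.down, h⟩⟩

/-- **Representable implication semigroups do not form a variety.**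
(1) There are a finite algebra `A` which is representable over a finite set and a surjective
homomorphism from `A` onto an algebra `B` which is not representable (over any set of any
universe). (2) For no set of equations `E` the representable algebras are exactly the algebras
which satisfy `E`. -/
theorem result.{v} :
    (∃ (A B : Type) (_ : Finite A) (_ : Alg A) (_ : Alg B) (f : A → B),
      FinitelyRepresentable A ∧ IsHom f ∧ Function.Surjective f ∧ ¬ Representable.{v} B) ∧
    ∀ E : Set (Term × Term), ¬ ∀ (A : Type) [Alg A], Satisfies A E ↔ Representable.{v} A := by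
  have hB : ¬ Representable.{v} B₀ := by
    rintro ⟨X, T', h, H⟩
    exact not_representable_B₀ T' h H
  refine ⟨⟨A₀, B₀, inferInstance, inferInstance, inferInstance, proj,
    ⟨Fin 7, inferInstance, _, _, isRepr_A₀⟩, proj_hom, proj_surjective, hB⟩, ?_⟩
  intro E h
  exact hB ((h B₀).1 (satisfies_image proj_hom proj_surjective ((h A₀).2 representable_A₀)))

end Pool.Agent.Results.MP_390e14_lc.NotVariety
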